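import Pool.Agent.AutGeo.Defs

set_option autoImplicit false

/-!
# Part A: definitions (no regular geodesics)
-/

namespace AutGeo

open Finset

/-- exit direction of plane `l` -/
def Alin (a : ℕ → ZMod 4) (e : ℕ → ℤˣ) (l : ℕ) : ℤ × ℤ := rot (a l) (T (e l))

/-- entry direction of plane `l` (crossing number `l` has the sign `e (l-1)`) -/
def Blin (e : ℕ → ℤˣ) (l : ℕ) : ℤ × ℤ := T' (e (l - 1))

/-- displacement in plane `l` if the crossings are at the positions `Y` -/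
def disp (v : ℕ → ℤ × ℤ) (a : ℕ → ZMod 4) (e : ℕ → ℤˣ) (Y : ℕ → ℤ) (l : ℕ) : ℤ × ℤ :=
  v l + Y (l + 1) • Alin a e l - Y l • Blin e l

/-- the sequence `v_0 ρ^{a_0} t^{e_0} v_1 ... t^{e_{m-1}} v_m ρ^{a_m}` is reduced -/
def RedSeq (v : ℕ → ℤ × ℤ) (a : ℕ → ZMod 4) (e : ℕ → ℤˣ) (m : ℕ) : Prop :=
  ∀ l, l + 1 < m → ¬ (e (l + 1) = - e l ∧ a (l + 1) = 0 ∧ ∃ j : ℤ, v (l + 1) = j • T' (e l))

/-- the entry point of plane `l` -/
noncomputable def gp (v : ℕ → ℤ × ℤ) (a : ℕ → ZMod 4) (e : ℕ → ℤˣ) : ℕ → GG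
  | 0 => 1
  | (l + 1) => gp v a e l * of ⟨v l, a l⟩ * te (e l)

/-- The properties of `p(v) = |v|` that are used. -/
structure PHyp (p : ℤ × ℤ → ℝ) : Prop where
  zero : p 0 = 0
  neg : ∀ v, p (-v) = p v
  add : ∀ v w, p (v + w) ≤ p v + p w
  rot : ∃ C : ℝ, ∀ v, |p (rot 1 v) - p v| ≤ C
  uw : ∃ C : ℝ, ∀ j : ℤ, |p (j • (3, 0)) - p (j • (2, 2))| ≤ C
  pos : ∃ c : ℝ, 0 < c ∧ ∀ v : ℤ × ℤ, c * (|(v.1 : ℝ)| + |(v.2 : ℝ)|) ≤ p v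

/-- What pumping gives (A4): `(Q0)` and `(Q1)`. -/
def PropQ (p : ℤ × ℤ → ℝ) : Prop :=
  ∃ Nc : ℕ, ∀ m : ℕ, 1 ≤ m → ∃ C : ℝ, ∀ (v : ℕ → ℤ × ℤ) (a : ℕ → ZMod 4) (e : ℕ → ℤˣ), RedSeq v a e m →
    ∃ (Y : ℕ → ℤ) (col : ℕ → Fin Nc), Y 0 = 0 ∧ Y (m + 1) = 0 ∧
      (∑ l ∈ range (m + 1), p (disp v a e Y l) ≤ ∑ l ∈ range (m + 1), p (v l) + C) ∧
      ∀ i j, 1 ≤ i → i ≤ m → 1 ≤ j → j ≤ m → col i = col j →
        e (i - 1) = e (j - 1) ∧ 0 ≤ Y i * Y j ∧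
        ∀ X X' : ℕ → ℤ, X 0 = 0 → X' (m + 1) = 0 → X i - X' j = Y i - Y j →
          ∑ l ∈ range i, p (disp v a e Y l) + ∑ l ∈ Ico j (m + 1), p (disp v a e Y l) ≤
            ∑ l ∈ range i, p (disp v a e X l) + ∑ l ∈ Ico j (m + 1), p (disp v a e X' l) + C

/-- rotation of real vectors -/
def rotR (a : ZMod 4) (x : ℝ × ℝ) : ℝ × ℝ :=
  if a = 0 then x else if a = 1 then (-x.2, x.1) else if a = 2 then (-x.1, -x.2) else (x.2, -x.1)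

/-- cast of integer vectors -/
def cR (v : ℤ × ℤ) : ℝ × ℝ := ((v.1 : ℝ), (v.2 : ℝ))

/-- real exit directions -/
def TR (e : ℤˣ) : ℝ × ℝ := if e = 1 then (3, 0) else (2, 2)

/-- real entry directions -/
def TR' (e : ℤˣ) : ℝ × ℝ := if e = 1 then (2, 2) else (3, 0)

/-- pairing of a functional and a vector -/
def dot (l x : ℝ × ℝ) : ℝ := l.1 * x.1 + l.2 * x.2

lemma dot_add (l x y : ℝ × ℝ) : dot l (x + y) = dot l x + dot l y := by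
  simp only [dot, Prod.fst_add, Prod.snd_add]; ring

lemma dot_sub (l x y : ℝ × ℝ) : dot l (x - y) = dot l x - dot l y := by
  simp only [dot, Prod.fst_sub, Prod.snd_sub]; ring

lemma dot_smul (l x : ℝ × ℝ) (r : ℝ) : dot l (r • x) = r * dot l x := by
  simp only [dot, Prod.smul_fst, Prod.smul_snd, smul_eq_mul]; ring

lemma dot_neg (l x : ℝ × ℝ) : dot l (-x) = - dot l x := by
  simp only [dot, Prod.fst_neg, Prod.snd_neg]; ring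

lemma cR_add (v w : ℤ × ℤ) : cR (v + w) = cR v + cR w := by
  ext <;> simp [cR]

lemma cR_sub (v w : ℤ × ℤ) : cR (v - w) = cR v - cR w := by
  ext <;> simp [cR]

lemma cR_neg (v : ℤ × ℤ) : cR (-v) = - cR v := by
  ext <;> simp [cR]

lemma cR_smul (j : ℤ) (v : ℤ × ℤ) : cR (j • v) = (j : ℝ) • cR v := by
  ext <;> simp [cR]

lemma cR_rot (a : ZMod 4) (v : ℤ × ℤ) : cR (rot a v) = rotR a (cR v) := by
  unfold rot rotR cR
  split_ifs <;> simp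

lemma cR_T (e : ℤˣ) : cR (T e) = TR e := by
  rcases Int.units_eq_one_or e with rfl | rfl <;> simp [cR, T, TR]

lemma cR_T' (e : ℤˣ) : cR (T' e) = TR' e := by
  rcases Int.units_eq_one_or e with rfl | rfl <;> simp [cR, T', TR']

/-- a rotation invariant norm on the plane with `N(u) = N(w)` -/
structure IsNorm (N : ℝ × ℝ → ℝ) : Prop where
  add : ∀ x y, N (x + y) ≤ N x + N y
  smul : ∀ (r : ℝ) x, N (r • x) = |r| * N x
  pos : ∀ x, x ≠ 0 → 0 < N x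
  rot : ∀ x, N (rotR 1 x) = N x
  uw : N (3, 0) = N (2, 2)

/-- the dual unit sphere -/
def Sstar (N : ℝ × ℝ → ℝ) : Set (ℝ × ℝ) :=
  {l | (∀ x, dot l x ≤ N x) ∧ ∃ x, x ≠ 0 ∧ dot l x = N x}

/-- the transitions of momentum states (A6); a state is `(c, e)`: crossing `t^e` with momentum `c` -/
def StStep (N : ℝ × ℝ → ℝ) (x y : ℝ × ℤˣ) : Prop :=
  |y.1| < N (3, 0) ∧ ∃ l ∈ Sstar N, ∃ a : ZMod 4, dot l (TR' x.2) = x.1 ∧ dot l (rotR a (TR y.2)) = y.1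

/-- A configuration (A8): planes `0..m`, crossings `1..m`, the states of the crossings `1..n` are distinct. -/
structure Config (N : ℝ × ℝ → ℝ) (m n : ℕ) (a : ℕ → ZMod 4) (e : ℕ → ℤˣ) (c ζ : ℕ → ℝ)
    (lam V : ℕ → ℝ × ℝ) (H δ : ℝ) : Prop where
  Hpos : 0 < H
  hn : n ≤ m
  z0 : ζ 0 = 0
  zm : ζ (m + 1) = 0
  zne : ∀ l, 1 ≤ l → l ≤ m → ζ l ≠ 0
  lamN : ∀ l, l ≤ m → ∀ x, dot (lam l) x ≤ N x
  lamA : ∀ l, l < m → dot (lam l) (cR (Alin a e l)) = c (l + 1)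
  lamB : ∀ l, 1 ≤ l → l ≤ m → dot (lam l) (cR (Blin e l)) = c l
  near : ∀ l, l ≤ m → ∀ h : ℝ, |h| ≤ H →
    N (V l + h • (ζ (l + 1) • cR (Alin a e l) - ζ l • cR (Blin e l))) ≤
      dot (lam l) (V l + h • (ζ (l + 1) • cR (Alin a e l) - ζ l • cR (Blin e l))) + δ
  npar : ∀ l, 1 ≤ l → l < m → ∀ r : ℝ, V l ≠ r • cR (Blin e l)
  dist : ∀ i j, 1 ≤ i → i < j → j ≤ n → e (i - 1) = e (j - 1) → c i ≠ c j

end AutGeo
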