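import Mathlib

set_option autoImplicit false

/-!
# The group `G = ⟨Z² ⋊ C₄, t | t (2,2) t⁻¹ = (3,0)⟩` (MP_69f220_al), basic definitions
-/

namespace AutGeo

/-- rotation by `a` times 90 degrees of an integer vector -/
def rot (a : ZMod 4) (v : ℤ × ℤ) : ℤ × ℤ :=
  if a = 0 then v else if a = 1 then (-v.2, v.1) else if a = 2 then (-v.1, -v.2) else (v.2, -v.1)

lemma rot_zero (v : ℤ × ℤ) : rot 0 v = v := by simp [rot]

lemma rot_one (v : ℤ × ℤ) : rot 1 v = (-v.2, v.1) := by
  have h : ¬ ((1 : ZMod 4) = 0) := by decide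
  simp [rot, h]

lemma rot_two (v : ℤ × ℤ) : rot 2 v = (-v.1, -v.2) := by
  have h : ¬ ((2 : ZMod 4) = 0) := by decide
  have h' : ¬ ((2 : ZMod 4) = 1) := by decide
  simp [rot, h, h']

lemma rot_three (v : ℤ × ℤ) : rot 3 v = (v.2, -v.1) := by
  have h : ¬ ((3 : ZMod 4) = 0) := by decide
  have h' : ¬ ((3 : ZMod 4) = 1) := by decide
  have h'' : ¬ ((3 : ZMod 4) = 2) := by decide
  simp [rot, h, h', h'']

lemma zmod4_cases (a : ZMod 4) : a = 0 ∨ a = 1 ∨ a = 2 ∨ a = 3 := by
  revert a; decide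

lemma rot_add (a : ZMod 4) (v w : ℤ × ℤ) : rot a (v + w) = rot a v + rot a w := by
  rcases zmod4_cases a with rfl | rfl | rfl | rfl <;>
    simp only [rot_zero, rot_one, rot_two, rot_three] <;> ext <;> simp <;> ring

lemma rot_neg (a : ZMod 4) (v : ℤ × ℤ) : rot a (-v) = - rot a v := by
  rcases zmod4_cases a with rfl | rfl | rfl | rfl <;>
    simp only [rot_zero, rot_one, rot_two, rot_three] <;> ext <;> simp

lemma rot_zero' (a : ZMod 4) : rot a 0 = 0 := by
  rcases zmod4_cases a with rfl | rfl | rfl | rfl <;>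
    simp only [rot_zero, rot_one, rot_two, rot_three] <;> ext <;> simp

lemma rot_smul (a : ZMod 4) (j : ℤ) (v : ℤ × ℤ) : rot a (j • v) = j • rot a v := by
  rcases zmod4_cases a with rfl | rfl | rfl | rfl <;>
    simp only [rot_zero, rot_one, rot_two, rot_three] <;> ext <;> simp

lemma rot_rot (a b : ZMod 4) (v : ℤ × ℤ) : rot (a + b) v = rot a (rot b v) := by
  have e1 : (1 : ZMod 4) + 1 = 2 := by decide
  have e2 : (1 : ZMod 4) + 2 = 3 := by decide
  have e3 : (1 : ZMod 4) + 3 = 0 := by decide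
  have e4 : (2 : ZMod 4) + 1 = 3 := by decide
  have e5 : (2 : ZMod 4) + 2 = 0 := by decide
  have e6 : (2 : ZMod 4) + 3 = 1 := by decide
  have e7 : (3 : ZMod 4) + 1 = 0 := by decide
  have e8 : (3 : ZMod 4) + 2 = 1 := by decide
  have e9 : (3 : ZMod 4) + 3 = 2 := by decide
  rcases zmod4_cases a with rfl | rfl | rfl | rfl <;>
    rcases zmod4_cases b with rfl | rfl | rfl | rfl <;>
    simp [rot_zero, rot_one, rot_two, rot_three, e1, e2, e3, e4, e5, e6, e7, e8, e9]

/-- The group `Z² ⋊ C₄`. -/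
@[ext] structure KK where
  /-- translation part -/
  v : ℤ × ℤ
  /-- rotation part -/
  a : ZMod 4

namespace KK

instance : Mul KK := ⟨fun x y => ⟨x.v + rot x.a y.v, x.a + y.a⟩⟩
instance : One KK := ⟨⟨0, 0⟩⟩
instance : Inv KK := ⟨fun x => ⟨rot (-x.a) (-x.v), -x.a⟩⟩

@[simp] lemma mul_v (x y : KK) : (x * y).v = x.v + rot x.a y.v := rfl
@[simp] lemma mul_a (x y : KK) : (x * y).a = x.a + y.a := rfl
@[simp] lemma one_v : (1 : KK).v = 0 := rfl
@[simp] lemma one_a : (1 : KK).a = 0 := rfl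
@[simp] lemma inv_v (x : KK) : (x⁻¹).v = rot (-x.a) (-x.v) := rfl
@[simp] lemma inv_a (x : KK) : (x⁻¹).a = -x.a := rfl

instance : Group KK := Group.ofLeftAxioms
  (by
    intro x y z
    ext1
    · simp only [mul_v, mul_a, rot_add, rot_rot, add_assoc]
    · simp only [mul_a, add_assoc])
  (by
    intro x
    ext1
    · simp [rot_zero]
    · simp)
  (by
    intro x
    ext1
    · simp only [mul_v, inv_v, inv_a, one_v, ← rot_add, neg_add_cancel, rot_zero']
    · simp)

end KK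

/-- a vector as an element of `KK` -/
def vec (v : ℤ × ℤ) : KK := ⟨v, 0⟩

@[simp] lemma vec_v (v : ℤ × ℤ) : (vec v).v = v := rfl
@[simp] lemma vec_a (v : ℤ × ℤ) : (vec v).a = 0 := rfl

lemma vec_mul (v w : ℤ × ℤ) : vec v * vec w = vec (v + w) := by
  ext1
  · simp [rot_zero]
  · simp

lemma vec_zero : vec 0 = 1 := rfl

lemma vec_inv (v : ℤ × ℤ) : (vec v)⁻¹ = vec (-v) := by
  ext1
  · simp [rot_zero]
  · simp

/-- The infinite cyclic subgroup generated by the translation by `b`. -/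
def line (b : ℤ × ℤ) : Subgroup KK where
  carrier := {k | ∃ j : ℤ, k = vec (j • b)}
  mul_mem' := by
    rintro x y ⟨i, rfl⟩ ⟨j, rfl⟩
    exact ⟨i + j, by rw [vec_mul, add_smul]⟩
  one_mem' := ⟨0, by simp [vec_zero]⟩
  inv_mem' := by
    rintro x ⟨i, rfl⟩
    exact ⟨-i, by rw [vec_inv, neg_smul]⟩

lemma mem_line {b : ℤ × ℤ} {k : KK} : k ∈ line b ↔ ∃ j : ℤ, k = vec (j • b) := Iff.rfl

/-- for `b ≠ 0` the line subgroup is infinite cyclic -/
noncomputable def lineEquiv (b : ℤ × ℤ) (hb : b ≠ 0) : Multiplicative ℤ ≃* line b :=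
  MulEquiv.ofBijective
    ({ toFun := fun j => ⟨vec (j.toAdd • b), ⟨j.toAdd, rfl⟩⟩
       map_one' := by
         apply Subtype.ext
         simp [vec_zero]
       map_mul' := by
         intro i j
         apply Subtype.ext
         simp [vec_mul, add_smul] } : Multiplicative ℤ →* line b)
    (by
      constructor
      · intro i j h
        have h1 : (vec (i.toAdd • b)).v = (vec (j.toAdd • b)).v := congrArg KK.v (congrArg Subtype.val h)
        have h2 : (i.toAdd - j.toAdd) • b = 0 := by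
          rw [sub_smul]; simpa [sub_eq_zero] using h1
        have h3 : i.toAdd - j.toAdd = 0 := by
          by_contra hne
          exact hb ((smul_eq_zero.1 h2).resolve_left hne)
        exact Multiplicative.toAdd.injective (by omega)
      · rintro ⟨k, j, rfl⟩
        exact ⟨Multiplicative.ofAdd j, rfl⟩)

lemma lineEquiv_apply (b : ℤ × ℤ) (hb : b ≠ 0) (j : ℤ) :
    ((lineEquiv b hb (Multiplicative.ofAdd j) : line b) : KK) = vec (j • b) := rfl

lemma w_ne : ((2, 2) : ℤ × ℤ) ≠ 0 := by decide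
lemma u_ne : ((3, 0) : ℤ × ℤ) ≠ 0 := by decide

/-- the isomorphism `⟨w⟩ ≃ ⟨u⟩`, `w = (2,2)`, `u = (3,0)` -/
noncomputable def phi : line (2, 2) ≃* line (3, 0) :=
  (lineEquiv (2, 2) w_ne).symm.trans (lineEquiv (3, 0) u_ne)

lemma phi_apply (j : ℤ) : ((phi ⟨vec (j • (2, 2)), ⟨j, rfl⟩⟩ : line (3, 0)) : KK) = vec (j • (3, 0)) := by
  have h : (lineEquiv (2, 2) w_ne).symm ⟨vec (j • (2, 2)), ⟨j, rfl⟩⟩ = Multiplicative.ofAdd j := by
    rw [MulEquiv.symm_apply_eq]; rfl
  simp only [phi, MulEquiv.trans_apply, h]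
  rfl

/-- The group `G`. -/
abbrev GG : Type := HNNExtension KK (line (2, 2)) (line (3, 0)) phi

/-- embedding of `KK` in `G` -/
noncomputable abbrev of : KK →* GG := HNNExtension.of

/-- the stable letter to the power `e = ±1` -/
noncomputable def te (e : ℤˣ) : GG := (HNNExtension.t : GG) ^ (e : ℤ)

/-- direction of the exit line of a crossing `t^e` -/
def T (e : ℤˣ) : ℤ × ℤ := if e = 1 then (3, 0) else (2, 2)

/-- direction of the entry line after a crossing `t^e` -/
def T' (e : ℤˣ) : ℤ × ℤ := if e = 1 then (2, 2) else (3, 0)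

@[simp] lemma T_one : T 1 = (3, 0) := rfl
@[simp] lemma T_neg_one : T (-1) = (2, 2) := rfl
@[simp] lemma T'_one : T' 1 = (2, 2) := rfl
@[simp] lemma T'_neg_one : T' (-1) = (3, 0) := rfl

lemma T_neg (e : ℤˣ) : T (-e) = T' e := by
  rcases Int.units_eq_one_or e with rfl | rfl <;> rfl

lemma T'_neg (e : ℤˣ) : T' (-e) = T e := by
  rcases Int.units_eq_one_or e with rfl | rfl <;> rfl

lemma te_neg (e : ℤˣ) : te (-e) = (te e)⁻¹ := by
  simp [te, zpow_neg]

/-- relation (0): `T(e)^j t^e = t^e T'(e)^j` -/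
lemma vecT_te (e : ℤˣ) (j : ℤ) : of (vec (j • T e)) * te e = te e * of (vec (j • T' e)) := by
  have key := HNNExtension.t_mul_of (φ := phi) ⟨vec (j • (2, 2)), ⟨j, rfl⟩⟩
  rw [phi_apply] at key
  rcases Int.units_eq_one_or e with rfl | rfl
  · simp only [te, Units.val_one, zpow_one, T_one, T'_one]
    exact key.symm
  · simp only [te, Units.val_neg, Units.val_one, zpow_neg, zpow_one, T_neg_one, T'_neg_one]
    have : of (vec (j • (2, 2))) * (HNNExtension.t : GG)⁻¹ =
        (HNNExtension.t : GG)⁻¹ * (HNNExtension.t * of (vec (j • (2, 2)))) * (HNNExtension.t : GG)⁻¹ := by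
      group
    rw [this]
    change (HNNExtension.t : GG)⁻¹ * (HNNExtension.t * HNNExtension.of (vec (j • (2, 2)))) * (HNNExtension.t : GG)⁻¹ = _
    rw [key]
    group

/-- `of (v, a) * T(e)^j`: moving the vector to the left -/
lemma mk_mul_vec (v : ℤ × ℤ) (a : ZMod 4) (w : ℤ × ℤ) :
    (⟨v, a⟩ : KK) * vec w = vec (rot a w) * ⟨v, a⟩ := by
  ext1
  · simp [rot_zero, add_comm]
  · simp

/-- `Red h e`: `h` is the product of a reduced sequence ending with `t^e`. -/
inductive Red : GG → ℤˣ → Prop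
  | base (k : KK) (e : ℤˣ) : Red (of k * te e) e
  | step {h : GG} {e : ℤˣ} (k : KK) (e' : ℤˣ) : Red h e →
      ¬ (e' = -e ∧ ∃ j : ℤ, k = vec (j • T' e)) → Red (h * of k * te e') e'

end AutGeo
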