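import Pool.Agent.AutGeo.NoReg
import Pool.Agent.AutGeo.B.Left

set_option autoImplicit false

namespace AutGeo

/-- `GG` is finitely generated -/
theorem GG_fg : Group.FG GG := by
  obtain ⟨X, hX, -⟩ := automatic
  exact ⟨⟨X, hX⟩⟩

/-- `GG` is a counterexample -/
theorem main : ¬ ((∃ X : Finset GG, Subgroup.closure (X : Set GG) = ⊤ ∧
          ∃ σ : Type, ∃ _ : Fintype σ, ∃ M : DFA ({x // x ∈ X} × Bool) σ,
            (∀ g : GG, ∃ w : List ({x // x ∈ X} × Bool), M.eval w ∈ M.accept ∧ wval X w = g) ∧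
            ∃ K : ℕ, ∀ u v : List ({x // x ∈ X} × Bool),
              M.eval u ∈ M.accept → M.eval v ∈ M.accept →
              (∃ z : List ({x // x ∈ X} × Bool), z.length ≤ 1 ∧ wval X u * wval X z = wval X v) →
              ∀ t : ℕ, ∃ z : List ({x // x ∈ X} × Bool), z.length ≤ K ∧
                wval X (u.take t) * wval X z = wval X (v.take t)) ↔
       (∃ X : Finset GG, Subgroup.closure (X : Set GG) = ⊤ ∧
          ∃ σ : Type, ∃ _ : Fintype σ, ∃ M : DFA ({x // x ∈ X} × Bool) σ,
            ∀ w : List ({x // x ∈ X} × Bool), M.eval w ∈ M.accept ↔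
              ∀ v : List ({x // x ∈ X} × Bool), wval X v = wval X w → w.length ≤ v.length)) := by
  intro h
  obtain ⟨X, hX, σ, hσ, M, hM⟩ := h.1 automatic
  exact no_regular_geodesics X hX σ M hM

end AutGeo
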