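import Pool.Agent.AutGeo.G.GroupPart
import Pool.Agent.AutGeo.G.PumpDFA
import Pool.Agent.AutGeo.A.Analysis

set_option autoImplicit false

namespace AutGeo

/-- PART A: no finite generating set of `G` has a regular geodesic language. -/
theorem no_regular_geodesics (X : Finset GG) (hX : Subgroup.closure (X : Set GG) = ⊤) (σ : Type) [Fintype σ]
    (M : DFA ({x // x ∈ X} × Bool) σ)
    (hM : ∀ w : List ({x // x ∈ X} × Bool), M.eval w ∈ M.accept ↔
      ∀ v : List ({x // x ∈ X} × Bool), wval X v = wval X w → w.length ≤ v.length) : False := by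
  classical
  have hP := pump_of_dfa X hX σ M hM
  have h1 := wlen_one X
  have hmul := wlen_mul X hX
  have hinv := wlen_inv X hX
  have hS := wlen_symm X
  exact analysis (pl (wlen X)) (pl_hyp _ _ _ h1 hmul hinv hS hP) (pl_propQ _ _ _ h1 hmul hinv hS hP)

end AutGeo
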